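import Pool.Agent.helper97.IRO.Spec

set_option autoImplicit false

open MeasureTheory Pool.Agent.LOF

namespace Pool.Agent.IRO

lemma FN2_ext (g : F) (s : Bool) (ε : D → Bool) : g • ext s ε = ext s (actS g ε) := by
  funext y
  show ext s ε (g⁻¹ • y) = ext s (actS g ε) y
  have hone : (g⁻¹ : F).1 1 = 1 := F.out (g⁻¹ : F).2 (by simp)
  unfold ext
  by_cases h : y.1 < 1
  · have h' : (g⁻¹ • y : DD).1 < 1 := by
      have := (g⁻¹ : F).1.strictMono h
      rw [hone] at this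
      exact this
    rw [dif_pos h, dif_pos h']
    rfl
  · have h' : ¬ (g⁻¹ • y : DD).1 < 1 := by
      intro h2
      apply h
      have h3 : (g⁻¹ : F).1 y.1 < (g⁻¹ : F).1 1 := by rw [hone]; exact h2
      exact (g⁻¹ : F).1.lt_iff_lt.1 h3
    rw [dif_neg h, dif_neg h']

lemma FN2_pos (g h : F) (s : Bool) (ε : D → Bool) :
    Pos (ext s ε) (g⁻¹ * h * g : F).1 ↔ Pos (ext s (actS g ε)) h.1 := by
  rw [← FN2_ext]
  have e1 : (g⁻¹ * h * g : F).1 = (g⁻¹ : F).1 * h.1 * ((g⁻¹ : F).1)⁻¹ := by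
    have : g⁻¹ * h * g = g⁻¹ * h * (g⁻¹)⁻¹ := by group
    rw [this]
    rfl
  rw [e1]
  constructor
  · intro h1
    have h2 := pos_smul (f := g) h1
    have e2 : g.1 * ((g⁻¹ : F).1 * h.1 * ((g⁻¹ : F).1)⁻¹) * g.1⁻¹ = h.1 := by
      rw [Subgroup.coe_inv]
      group
    rwa [e2] at h2
  · intro h1
    have h2 := pos_smul (f := g⁻¹) h1
    rwa [inv_smul_smul] at h2

lemma FN2_posQ (g h : F) (q : Q) (ε : D → Bool) :
    PosQ q ε (g⁻¹ * h * g) ↔ PosQ q (actS g ε) h := by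
  rcases q with s | o
  · exact FN2_pos g h s ε
  · have e : Abelianization.of (g⁻¹ * h * g) = Abelianization.of h := by
      rw [map_mul, map_mul, map_inv, mul_comm, mul_inv_cancel_left]
    show (o.1 (1, Abelianization.of (g⁻¹ * h * g)) = true ∨
      (Abelianization.of (g⁻¹ * h * g) = 1 ∧ Pos (ext true ε) (g⁻¹ * h * g : F).1)) ↔
      (o.1 (1, Abelianization.of h) = true ∨
      (Abelianization.of h = 1 ∧ Pos (ext true (actS g ε)) h.1))
    rw [e, FN2_pos]

theorem FN2 : FN2_stmt := by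
  intro g q ε
  apply Pr_inj
  intro h
  rw [Pr_conj]
  unfold Ord
  rw [Pr_ofCone, Pr_ofCone]
  exact FN2_posQ g h q ε

end Pool.Agent.IRO
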