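import Pool.Agent.helper97.IRO.Spec2

set_option autoImplicit false

open MeasureTheory Pool.Agent.LOF

namespace Pool.Agent.IRO

lemma UN1_comm (hGE7 : GE7_stmt) (g : F) (h0 : ∀ z, z ≤ 1 / 4 → g.1 z = z)
    (h1 : ∀ z, 3 / 4 ≤ z → g.1 z = z) : g ∈ commutator F := by
  refine hGE7.2 g ⟨1 / 4, by norm_num, fun z _ hz => ?_⟩ ⟨3 / 4, by norm_num, fun z hz _ => ?_⟩
  · rw [h0 z hz.le]; simp
  · rw [h1 z hz.le]; simp

lemma UN1_ext (s : Bool) (ε : D → Bool) (y : D) :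
    ext s ε ⟨y.1, y.2.1, y.2.2.1, y.2.2.2.le⟩ = ε y := by
  unfold ext
  rw [dif_pos y.2.2.2]
  rfl

lemma UN1_posQ (q : Q) (ε : D → Bool) (g : F) (hc : g ∈ commutator F) (y : D)
    (ht : ∀ z, y.1 ≤ z → g.1 z = z) :
    (Up g.1 y.1 → (PosQ q ε g ↔ ε y = true)) ∧ (Down g.1 y.1 → (PosQ q ε g ↔ ε y = false)) := by
  have e1 : Abelianization.of g = 1 := by
    rw [← MonoidHom.mem_ker, Abelianization.ker_of]; exact hc
  have key : ∀ (b : Bool), (∀ s : Bool, Pos (ext s ε) g.1 ↔ ε y = b) →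
      (PosQ q ε g ↔ ε y = b) := by
    intro b hb
    rcases q with s | o
    · exact hb s
    · show (o.1 (1, Abelianization.of g) = true ∨
        (Abelianization.of g = 1 ∧ Pos (ext true ε) g.1)) ↔ _
      rw [e1, o.2.1 1]
      constructor
      · rintro (h | h)
        · exact absurd h Bool.false_ne_true
        · exact (hb true).1 h.2
      · intro h
        exact Or.inr ⟨rfl, (hb true).2 h⟩
  constructor
  · intro hu
    apply key
    intro s
    have htop : IsTop g.1 (⟨y.1, y.2.1, y.2.2.1, y.2.2.2.le⟩ : DD).1 := ⟨ht, Or.inl hu⟩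
    rw [pos_iff htop, UN1_ext]
    constructor
    · rintro (h | h)
      · exact h.2
      · exact absurd h.1 (fun h2 => not_up_down hu h2)
    · intro h
      exact Or.inl ⟨hu, h⟩
  · intro hd
    apply key
    intro s
    have htop : IsTop g.1 (⟨y.1, y.2.1, y.2.2.1, y.2.2.2.le⟩ : DD).1 := ⟨ht, Or.inr hd⟩
    rw [pos_iff htop, UN1_ext]
    constructor
    · rintro (h | h)
      · exact absurd hd (fun h2 => not_up_down h.1 h2)
      · exact h.2
    · intro h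
      exact Or.inr ⟨hd, h⟩

theorem UN1 (hG2 : G2_stmt) (hG4 : G4_stmt) (hGE7 : GE7_stmt) : UN1_stmt := by
  intro q q' ε ε' heq
  have hd4 : IsDyadic (1 / 4) := ⟨1, 2, by norm_num⟩
  have hd34 : IsDyadic (3 / 4) := ⟨3, 2, by norm_num⟩
  obtain ⟨b', _, hb1, hb2, w, hw, hwR⟩ := (hG4 (1 / 4) (1 / 2) (by norm_num) (by norm_num)
    (by norm_num)).2 hd4
  obtain ⟨a', _, ha1, ha2, u, hu, huL⟩ := (hG4 (1 / 2) (3 / 4) (by norm_num) (by norm_num)
    (by norm_num)).1 hd34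
  have hwR' : gR (w⁻¹ : F).1 (1 / 4) (-1) := (hG2 w.1 w.1 (1 / 4) 1 1).2.2.2 hwR
  have hw' : w⁻¹ ∈ FI (1 / 4) b' := inv_mem hw
  let y : D := ⟨3 / 4, hd34, by norm_num, by norm_num⟩
  -- facts for `v * u` with `v = w, w⁻¹`
  have fu : ∀ z, z ∉ Set.Ioo a' (3 / 4) → u.1 z = z := hu
  have low : ∀ v : F, v ∈ FI (1 / 4) b' → ∀ z, z ≤ 1 / 4 → (v * u : F).1 z = z := by
    intro v hv z hz
    show v.1 (u.1 z) = z
    rw [fu z (fun h => by have := h.1; linarith), hv z (fun h => by have := h.1; linarith)]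
  have high : ∀ v : F, v ∈ FI (1 / 4) b' → ∀ z, 3 / 4 ≤ z → (v * u : F).1 z = z := by
    intro v hv z hz
    show v.1 (u.1 z) = z
    rw [fu z (fun h => by have := h.2; linarith), hv z (fun h => by have := h.2; linarith)]
  have down : ∀ v : F, v ∈ FI (1 / 4) b' → Down (v * u : F).1 y.1 := by
    intro v hv
    obtain ⟨e, he, hz⟩ := huL
    refine ⟨max e (5 / 8), max_lt he (by show (5 : ℝ) / 8 < 3 / 4; norm_num), fun z h1 h2 => ?_⟩
    have h2' : z < 3 / 4 := h2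
    have h3 : e < z := lt_of_le_of_lt (le_max_left _ _) h1
    have h4 : 5 / 8 < z := lt_of_le_of_lt (le_max_right _ _) h1
    have h5 := hz z h3 h2'.le
    rw [zpow_one] at h5
    show v.1 (u.1 z) < z
    rw [h5, hv _ (fun h => by have := h.2; linarith)]
    linarith
  have mlow : ∀ v : F, v ∈ FI (1 / 4) b' → ∀ z, z ≤ 1 / 4 → (mirF (v * u)).1 z = z := by
    intro v hv z hz
    show 1 - (v * u : F).1 (1 - z) = z
    rw [high v hv (1 - z) (by linarith)]; ring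
  have mhigh : ∀ v : F, v ∈ FI (1 / 4) b' → ∀ z, 3 / 4 ≤ z → (mirF (v * u)).1 z = z := by
    intro v hv z hz
    show 1 - (v * u : F).1 (1 - z) = z
    rw [low v hv (1 - z) (by linarith)]; ring
  have mval : ∀ (v : F) (z : ℝ), 1 / 2 < z → (mirF (v * u)).1 z = 1 - v.1 (1 - z) := by
    intro v z hz
    show 1 - v.1 (u.1 (1 - z)) = _
    rw [fu (1 - z) (fun h => by have := h.1; linarith)]
  have md : Down (mirF (w * u)).1 y.1 := by
    obtain ⟨e, he, hz⟩ := hwR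
    refine ⟨max (1 - e) (1 / 2), max_lt (by show 1 - e < 3 / 4; linarith)
      (by show (1 : ℝ) / 2 < 3 / 4; norm_num), fun z h1 h2 => ?_⟩
    have h2' : z < 3 / 4 := h2
    have h3 : 1 - e < z := lt_of_le_of_lt (le_max_left _ _) h1
    have h4 : 1 / 2 < z := lt_of_le_of_lt (le_max_right _ _) h1
    have h5 := hz (1 - z) (by linarith) (by linarith)
    rw [zpow_one] at h5
    rw [mval w z h4, h5]
    linarith
  have mu : Up (mirF (w⁻¹ * u)).1 y.1 := by
    obtain ⟨e, he, hz⟩ := hwR'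
    refine ⟨max (1 - e) (1 / 2), max_lt (by show 1 - e < 3 / 4; linarith)
      (by show (1 : ℝ) / 2 < 3 / 4; norm_num), fun z h1 h2 => ?_⟩
    have h2' : z < 3 / 4 := h2
    have h3 : 1 - e < z := lt_of_le_of_lt (le_max_left _ _) h1
    have h4 : 1 / 2 < z := lt_of_le_of_lt (le_max_right _ _) h1
    have h5 := hz (1 - z) (by linarith) (by linarith)
    rw [zpow_neg, zpow_one] at h5
    rw [mval w⁻¹ z h4, h5]
    linarith
  have c1 := UN1_comm hGE7 (w * u) (low w hw) (high w hw)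
  have c2 := UN1_comm hGE7 (w⁻¹ * u) (low _ hw') (high _ hw')
  have c3 := UN1_comm hGE7 (mirF (w * u)) (mlow w hw) (mhigh w hw)
  have c4 := UN1_comm hGE7 (mirF (w⁻¹ * u)) (mlow _ hw') (mhigh _ hw')
  have p1 := (UN1_posQ q ε _ c1 y (high w hw)).2 (down w hw)
  have p2 := (UN1_posQ q ε _ c2 y (high _ hw')).2 (down _ hw')
  have p3 := (UN1_posQ q' ε' _ c3 y (mhigh w hw)).2 md
  have p4 := (UN1_posQ q' ε' _ c4 y (mhigh _ hw')).1 mu
  have e1 : PosQ q ε (w * u) ↔ PosQ q' ε' (mirF (w * u)) := by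
    have h1 : Pr (Ord q ε) (w * u) ↔ Pr (pull (Ord q' ε')) (w * u) := by rw [heq]
    rw [Pr_pull] at h1
    unfold Ord at h1
    rwa [Pr_ofCone, Pr_ofCone] at h1
  have e2 : PosQ q ε (w⁻¹ * u) ↔ PosQ q' ε' (mirF (w⁻¹ * u)) := by
    have h1 : Pr (Ord q ε) (w⁻¹ * u) ↔ Pr (pull (Ord q' ε')) (w⁻¹ * u) := by rw [heq]
    rw [Pr_pull] at h1
    unfold Ord at h1
    rwa [Pr_ofCone, Pr_ofCone] at h1
  have e3 : ε' y = false ↔ ε' y = true :=
    p3.symm.trans (e1.symm.trans (p1.trans (p2.symm.trans (e2.trans p4))))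
  cases h : ε' y
  · exact Bool.false_ne_true ((h ▸ e3).1 rfl)
  · have := (h ▸ e3).2 rfl
    exact Bool.false_ne_true this.symm

end Pool.Agent.IRO
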